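import Pool.Agent.U228.GP.Unrel
import Pool.Agent.U228.KP.Orth

/-!
# Families of products of surfaces with categories: definitions

Let `𝒮` be a complex variety, `S_i → 𝒮` (`i ≤ r`) families of surfaces with `b₁ = 0` and `𝒞` an
`𝒮`-linear admissible category. We consider the families `D(S_(a 1) ×_𝒮 ... ×_𝒮 S_(a m)) ⊠ 𝒞`. The
local systems are trivialised over the universal cover of `𝒮`, whose points are the elements of the type
`B`.
-/

set_option autoImplicit false
set_option linter.unusedSectionVars false

open Finset Module Matrix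

namespace Pool.Agent.U228.VH

open Pool.Agent.W544.PG Pool.Agent.TH164.HC Pool.Agent.U228.KP Pool.Agent.U228.GP

noncomputable section

variable {n r s v m : ℕ} {B : Type}

/-- The span of the products of the algebraic classes and of the transcendental parts of the diagonals
on the product of the surfaces `S_(a 1), ..., S_(a m)` (see `HS.algP`; `Q` is the matrix of the
intersection form on the transcendental parts). These classes are flat. -/
def algQ (Q : Matrix (Fin n) (Fin n) ℚ) (c : Fin n → Fin r) (d : Fin s → Fin r) (a : Fin m → Fin r) :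
    Submodule ℚ ((Fin m → Fin s ⊕ Fin n) → ℚ) :=
  Submodule.span ℚ {t | ∃ (σ : Fin m → Fin m) (ν : Fin m → Fin s → ℚ), (∀ j, σ (σ j) = j) ∧
    (∀ j, a (σ j) = a j) ∧ (∀ j b, ν j b ≠ 0 → d b = a j) ∧
    ∀ J, t J = (∏ j with σ j = j, Sum.elim (ν j) (fun _ => 0) (J j)) *
      ∏ j with j < σ j,
        if Sum.elim d c (J j) = a j then Matrix.fromBlocks 0 0 0 Q (J j) (J (σ j)) else 0}

theorem algP_eq (T : HS n) (c : Fin n → Fin r) (d : Fin s → Fin r) (a : Fin m → Fin r) :
    T.algP c d a = algQ T.Q c d a := rfl

/-- A family of surfaces and of categories over a base; the points of the universal cover of the base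
are the elements of `B`.

The cohomology of the surface `S_i` is the direct sum of the space of its algebraic classes and of a
Hodge structure `T_i` of level two. The sum of the `T_i` is trivialised, and at the point `b` it is the
Hodge structure `T b`; `c` says to which `T_i` a coordinate belongs. The algebraic classes have
orthogonal bases (of flat classes); `d` says to which surface a member of the basis belongs, and `ρ` is
the inverse of its self-intersection. The group `K_0^top(𝒞_b) ⊗ ℚ` is trivialised, with Hodge structure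
`V b`. The elements of `mon` are the pairs of the action of the inverse of an element of the fundamental
group of the base on the `T_i` and of the action of this element on `K_0^top(𝒞_b) ⊗ ℚ`. -/
structure Fam (n r s v : ℕ) (B : Type) where
  /-- the transcendental part of the cohomology of the surfaces over the point `b` -/
  T : B → HS n
  /-- the decomposition of the transcendental part -/
  c : Fin n → Fin r
  /-- the intersection form on the transcendental part -/
  Q : Matrix (Fin n) (Fin n) ℚ
  form : ∀ b, (T b).Q = Q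
  block : ∀ b, BD c (T b).x
  /-- the surfaces to which the algebraic classes belong -/
  d : Fin s → Fin r
  surj : ∀ i, ∃ e, d e = i
  /-- the inverses of the self-intersections of the algebraic classes -/
  ρ : Fin s → ℚ
  ρ_ne : ∀ e, ρ e ≠ 0
  /-- the Hodge structure on `K_0^top(𝒞_b) ⊗ ℚ` -/
  V : B → HZ v
  /-- the monodromy -/
  mon : Set (Matrix (Fin n) (Fin n) ℚ × Matrix (Fin v) (Fin v) ℚ)
  isom : ∀ g ∈ mon, g.1ᵀ * Q * g.1 = Q ∧ BD c g.1

variable (F : Fam n r s v B)

/-- The global sections of the local system `K_0^top(𝒞) ⊗ ℚ` which are Hodge classes at all points. -/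
def Fam.flat : Submodule ℚ (Fin v → ℚ) where
  carrier := {x | (∀ g ∈ F.mon, g.2 *ᵥ x = x) ∧ ∀ b, x ∈ (F.V b).Hdg}
  zero_mem' := ⟨fun g _ => Matrix.mulVec_zero _, fun b => Submodule.zero_mem _⟩
  add_mem' := by
    rintro x y ⟨h1, h2⟩ ⟨h3, h4⟩
    exact ⟨fun g hg => by rw [Matrix.mulVec_add, h1 g hg, h3 g hg],
      fun b => Submodule.add_mem _ (h2 b) (h4 b)⟩
  smul_mem' := by
    rintro q x ⟨h1, h2⟩
    exact ⟨fun g hg => by rw [Matrix.mulVec_smul, h1 g hg], fun b => Submodule.smul_mem _ _ (h2 b)⟩

/-- `t` is a global section of the local system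
`H(S_(a 1)) ⊗ ... ⊗ H(S_(a m)) ⊗ K_0^top(𝒞) ⊗ ℚ`, it is a Hodge class at all points, and it has less
than `dim T_i` factors in `T_i` for all `i`. -/
structure Fam.IsSection (a : Fin m → Fin r) (t : (Fin m → Fin s ⊕ Fin n) → Fin v → ℚ) : Prop where
  surf : ∀ J e, t J e ≠ 0 → ∀ j, Sum.elim F.d F.c (J j) = a j
  few : ∀ J e, t J e ≠ 0 → ∀ i, (univ.filter fun j => ∃ l, J j = Sum.inr l ∧ F.c l = i).card <
    (univ.filter fun l => F.c l = i).card
  glob : ∀ g ∈ F.mon, ∀ J, g.2 *ᵥ (fun e => pull (ext1 s g.1) (fun K => t K e) J) = t J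
  hodge : ∀ b, IsHodgeZ (F.T b) (F.V b) t

/-- The spaces of the classes of objects (rational coefficients) of the categories `𝒞_b` and of
`D(S_(a 1) × ... × S_(a m))_b ⊠ 𝒞_b`: the external products of the classes in `algQ` and of the classes of
objects of `𝒞_b` are classes of objects, and the push-forwards to `𝒞_b` of the products of classes of
objects with the classes in `algQ` are classes of objects. -/
structure Classes where
  /-- the classes of objects of `𝒞_b` -/
  Z : B → Submodule ℚ (Fin v → ℚ)
  /-- the classes of objects of `D(S_(a 1) × ... × S_(a m))_b ⊠ 𝒞_b` -/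
  X : ∀ {m : ℕ}, (Fin m → Fin r) → B → Submodule ℚ ((Fin m → Fin s ⊕ Fin n) → Fin v → ℚ)
  mul : ∀ {m : ℕ} (a : Fin m → Fin r) (b : B), ∀ α ∈ algQ F.Q F.c F.d a, ∀ x ∈ Z b,
    (fun J e => α J * x e) ∈ X a b
  push : ∀ {m : ℕ} (a : Fin m → Fin r) (b : B), ∀ β ∈ algQ F.Q F.c F.d a, ∀ t ∈ X a b,
    contr F.Q F.ρ β t ∈ Z b

variable {F}

/-- The variational Hodge conjecture for `𝒞`: a global section of `K_0^top(𝒞) ⊗ ℚ` (which is a Hodge
class at all points) which is the class of an object of `𝒞_b` for one `b` is so for all `b`. -/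
def Classes.VHC (𝒜 : Classes F) : Prop :=
  ∀ x ∈ F.flat, ∀ b, x ∈ 𝒜.Z b → ∀ b', x ∈ 𝒜.Z b'

/-- The variational Hodge conjecture for `D(S_(a 1) × ... × S_(a m)) ⊠ 𝒞` and the classes with less
than `dim T_i` factors in `T_i`. -/
def Classes.VHCX (𝒜 : Classes F) (a : Fin m → Fin r) : Prop :=
  ∀ t, F.IsSection a t → ∀ b, t ∈ 𝒜.X a b → ∀ b', t ∈ 𝒜.X a b'

/-- The smallest complex Lie algebra of matrices which contains all conjugates of all `z b`. -/
def HLieF (z : B → Matrix (Fin v) (Fin v) ℂ) : Submodule ℂ (Matrix (Fin v) (Fin v) ℂ) :=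
  sInf {h | (∀ A ∈ h, ∀ A' ∈ h, A * A' - A' * A ∈ h) ∧ ∀ b (σ : ℂ ≃+* ℂ), (z b).map σ ∈ h}

/-- There is no homomorphism of Lie algebras, from the Lie algebra generated by the conjugates of the
Hodge operators of the `V b`, which takes for all `b` each conjugate of the Hodge operator of `V b` to the
same conjugate of the Hodge operator of `T_i` at the point `b`. -/
def NoQuotF (x : B → Matrix (Fin n) (Fin n) ℂ) (c : Fin n → Fin r)
    (z : B → Matrix (Fin v) (Fin v) ℂ) (i : Fin r) : Prop :=
  ¬ ∃ φ : Matrix (Fin v) (Fin v) ℂ →ₗ[ℂ] Matrix (Fin n) (Fin n) ℂ,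
    (∀ A ∈ HLieF z, ∀ A' ∈ HLieF z, φ (A * A' - A' * A) = φ A * φ A' - φ A' * φ A) ∧
    ∀ b (σ : ℂ ≃+* ℂ), φ ((z b).map σ) = blk c i ((x b).map σ)

variable (F)

/-- The variation of `𝒞` is unrelated to the variation of `T_i`, for one of the following reasons.

* Over the point `b₀` the Hodge structures are unrelated (`Unrelated`).
* There are two points `b`, `b'` with the same Hodge structure of `𝒞` and different Hodge structures
  `T_i` (for example: `T_i` varies with parameters on which `𝒞` does not depend).
* The Lie algebra generated by the conjugates of the Hodge operators of `𝒞` at all points has no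
  quotient which corresponds to `T_i` (`NoQuotF`). -/
def Fam.Unrel (b₀ : B) (i : Fin r) : Prop :=
  Unrelated (F.T b₀) F.c (F.V b₀).z i ∨
    (∃ b b', (F.V b).z = (F.V b').z ∧
      ∃ p q, F.c p = i ∧ F.c q = i ∧ (F.T b).x p q ≠ (F.T b').x p q) ∨
    NoQuotF (fun b => (F.T b).x) F.c (fun b => (F.V b).z) i

end

end Pool.Agent.U228.VH
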