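import Pool.Agent.U228.VH.Defs

/-!
# Families of products of surfaces with categories: proofs
-/

set_option autoImplicit false
set_option linter.unusedSectionVars false

open Finset Module Matrix

namespace Pool.Agent.U228.VH

open Pool.Agent.W544.PG Pool.Agent.TH164.HC Pool.Agent.U228.KP Pool.Agent.U228.GP

noncomputable section

variable {n r s v m : ℕ} {B : Type}

theorem HLieF_le {z : B → Matrix (Fin v) (Fin v) ℂ} {h : Submodule ℂ (Matrix (Fin v) (Fin v) ℂ)}
    (h1 : ∀ A ∈ h, ∀ A' ∈ h, A * A' - A' * A ∈ h) (h2 : ∀ b (σ : ℂ ≃+* ℂ), (z b).map σ ∈ h) :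
    HLieF z ≤ h := sInf_le ⟨h1, h2⟩

/-- **Goursat's lemma for variations.** -/
theorem exists_aloneF (i : Fin r) {x : B → Matrix (Fin n) (Fin n) ℂ} {c : Fin n → Fin r}
    {z : B → Matrix (Fin v) (Fin v) ℂ} (hno : NoQuotF x c z i)
    (L : Submodule ℂ (Matrix (Fin n) (Fin n) ℂ × Matrix (Fin v) (Fin v) ℂ))
    (hBD : ∀ p ∈ L, BD c p.1)
    (hbr : ∀ p ∈ L, ∀ q ∈ L, (p.1 * q.1 - q.1 * p.1, p.2 * q.2 - q.2 * p.2) ∈ L)
    (hσ : ∀ b (σ : ℂ ≃+* ℂ), ((x b).map σ, (z b).map σ) ∈ L) :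
    ∃ A, (A, 0) ∈ L ∧ ∃ a b, c a = i ∧ c b = i ∧ A a b ≠ 0 := by
  by_contra hcon
  push Not at hcon
  apply hno
  let f : L →ₗ[ℂ] Matrix (Fin v) (Fin v) ℂ := (LinearMap.snd ℂ _ _).comp L.subtype
  let g : L →ₗ[ℂ] Matrix (Fin n) (Fin n) ℂ :=
    ((blk c i).comp (LinearMap.fst ℂ _ _)).comp L.subtype
  have hker : LinearMap.ker f ≤ LinearMap.ker g := by
    rintro ⟨⟨A, B⟩, hp⟩ h1
    have hB : B = 0 := h1
    subst hB
    rw [LinearMap.mem_ker]
    change blk c i A = 0
    ext a b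
    rw [blk_apply]
    split_ifs with h
    · exact hcon A hp a b h.1 h.2
    · rfl
  obtain ⟨φ, hφ⟩ : ∃ φ : Matrix (Fin v) (Fin v) ℂ →ₗ[ℂ] Matrix (Fin n) (Fin n) ℂ,
      ∀ p : L, φ (f p) = g p := by
    let φ₀ : LinearMap.range f →ₗ[ℂ] Matrix (Fin n) (Fin n) ℂ :=
      ((LinearMap.ker f).liftQ g hker).comp f.quotKerEquivRange.symm.toLinearMap
    obtain ⟨φ, hφ⟩ := LinearMap.exists_extend φ₀
    refine ⟨φ, fun p => ?_⟩
    have h1 := LinearMap.congr_fun hφ ⟨f p, LinearMap.mem_range_self f p⟩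
    have h2 : f.quotKerEquivRange.symm ⟨f p, LinearMap.mem_range_self f p⟩ =
        (LinearMap.ker f).mkQ p := by
      rw [LinearEquiv.symm_apply_eq]
      rfl
    change φ (f p) = (LinearMap.ker f).liftQ g hker
      (f.quotKerEquivRange.symm ⟨f p, LinearMap.mem_range_self f p⟩) at h1
    rw [h1, h2]
    exact Submodule.liftQ_apply _ _ _
  have hφ' : ∀ p ∈ L, φ p.2 = blk c i p.1 := fun p hp => hφ ⟨p, hp⟩
  have hle : HLieF z ≤ L.map (LinearMap.snd ℂ _ _) := by
    refine HLieF_le ?_ fun b σ => ⟨_, hσ b σ, rfl⟩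
    rintro _ ⟨p, hp, rfl⟩ _ ⟨q, hq, rfl⟩
    exact ⟨_, hbr p hp q hq, rfl⟩
  refine ⟨φ, ?_, fun b σ => hφ' _ (hσ b σ)⟩
  intro A hA A' hA'
  obtain ⟨p, hp, rfl⟩ := hle hA
  obtain ⟨q, hq, rfl⟩ := hle hA'
  have h1 := hφ' _ (hbr p hp q hq)
  change φ (p.2 * q.2 - q.2 * p.2) = φ p.2 * φ q.2 - φ q.2 * φ p.2
  rw [hφ' p hp, hφ' q hq]
  rw [← blk_br i (hBD p hp) (hBD q hq)]
  exact h1

/-- The pairs of operators on `T` and on `V` which are compatible with the class `t`. -/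
def pairs (Q : Matrix (Fin n) (Fin n) ℚ) (c : Fin n → Fin r)
    (t : (Fin m → Fin s ⊕ Fin n) → Fin v → ℚ) :
    Submodule ℂ (Matrix (Fin n) (Fin n) ℂ × Matrix (Fin v) (Fin v) ℂ) where
  carrier := {p | (p.1ᵀ * mC Q + mC Q * p.1 = 0 ∧ BD c p.1) ∧
    ∀ b, act (emb s p.1) (sl t b) = fun J => ∑ b', p.2 b b' * sl t b' J}
  zero_mem' := by
    refine ⟨⟨by simp, fun a b _ => rfl⟩, fun b => ?_⟩
    change act (emb s (0 : Matrix (Fin n) (Fin n) ℂ)) (sl t b) =
      fun J => ∑ b', (0 : Matrix (Fin v) (Fin v) ℂ) b b' * sl t b' J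
    rw [emb_zero, act_zero]
    funext J
    simp
  add_mem' := by
    rintro ⟨A, B⟩ ⟨A', B'⟩ ⟨⟨a1, a2⟩, h⟩ ⟨⟨b1, b2⟩, h'⟩
    refine ⟨⟨?_, fun a b hab => ?_⟩, fun b => ?_⟩
    · change (A + A')ᵀ * mC Q + mC Q * (A + A') = 0
      change Aᵀ * mC Q + mC Q * A = 0 at a1
      change A'ᵀ * mC Q + mC Q * A' = 0 at b1
      rw [Matrix.transpose_add, Matrix.add_mul, Matrix.mul_add, add_add_add_comm, a1, b1,
        add_zero]
    · have e1 : A a b = 0 := a2 a b hab
      have e2 : A' a b = 0 := b2 a b hab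
      change A a b + A' a b = 0
      rw [e1, e2, add_zero]
    · change act (emb s (A + A')) (sl t b) = fun J => ∑ b', (B + B') b b' * sl t b' J
      have e1 : act (emb s A) (sl t b) = fun J => ∑ b', B b b' * sl t b' J := h b
      have e2 : act (emb s A') (sl t b) = fun J => ∑ b', B' b b' * sl t b' J := h' b
      rw [emb_add, act_add, e1, e2]
      funext J
      simp only [Pi.add_apply, Matrix.add_apply, add_mul, Finset.sum_add_distrib]
  smul_mem' := by
    rintro w ⟨A, B⟩ ⟨⟨a1, a2⟩, h⟩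
    refine ⟨⟨?_, fun a b hab => ?_⟩, fun b => ?_⟩
    · change (w • A)ᵀ * mC Q + mC Q * (w • A) = 0
      change Aᵀ * mC Q + mC Q * A = 0 at a1
      rw [Matrix.transpose_smul, Matrix.smul_mul, Matrix.mul_smul, ← smul_add, a1, smul_zero]
    · have e1 : A a b = 0 := a2 a b hab
      change w • A a b = 0
      rw [e1, smul_zero]
    · change act (emb s (w • A)) (sl t b) = fun J => ∑ b', (w • B) b b' * sl t b' J
      have e1 : act (emb s A) (sl t b) = fun J => ∑ b', B b b' * sl t b' J := h b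
      rw [emb_smul, act_smul, e1]
      funext J
      simp only [Pi.smul_apply, Matrix.smul_apply, smul_eq_mul, Finset.mul_sum, mul_assoc]

theorem pairs_br {Q : Matrix (Fin n) (Fin n) ℚ} {c : Fin n → Fin r}
    {t : (Fin m → Fin s ⊕ Fin n) → Fin v → ℚ} :
    ∀ p ∈ pairs Q c t, ∀ q ∈ pairs Q c t,
      (p.1 * q.1 - q.1 * p.1, p.2 * q.2 - q.2 * p.2) ∈ pairs Q c t := by
  rintro ⟨A, B⟩ ⟨⟨a1, a2⟩, h⟩ ⟨A', B'⟩ ⟨⟨b1, b2⟩, h'⟩
  refine ⟨⟨skew_br a1 b1, BD_br a2 b2⟩, fun b => ?_⟩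
  change act (emb s (A * A' - A' * A)) (sl t b) =
    fun J => ∑ b', (B * B' - B' * B) b b' * sl t b' J
  have e1 : ∀ b, act (emb s A) (sl t b) = fun J => ∑ b', B b b' * sl t b' J := h
  have e2 : ∀ b, act (emb s A') (sl t b) = fun J => ∑ b', B' b b' * sl t b' J := h'
  rw [emb_sub, emb_mul, emb_mul, W368.PG.act_lie, e1, e2, act_sum_right, act_sum_right]
  funext J
  simp only [e1, e2, Pi.sub_apply, Matrix.sub_apply, Matrix.mul_apply, sub_mul,
    Finset.sum_sub_distrib, Finset.mul_sum, Finset.sum_mul]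
  congr 1
  · rw [Finset.sum_comm]
    refine Finset.sum_congr rfl fun b' _ => Finset.sum_congr rfl fun b'' _ => ?_
    ring
  · rw [Finset.sum_comm]
    refine Finset.sum_congr rfl fun b' _ => Finset.sum_congr rfl fun b'' _ => ?_
    ring

theorem pairs_alone {Q : Matrix (Fin n) (Fin n) ℚ} {c : Fin n → Fin r}
    {t : (Fin m → Fin s ⊕ Fin n) → Fin v → ℚ} {A : Matrix (Fin n) (Fin n) ℂ}
    (hA : (A, (0 : Matrix (Fin v) (Fin v) ℂ)) ∈ pairs Q c t) : A ∈ Nt Q c t := by
  refine ⟨hA.1, fun b => ?_⟩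
  have h1 : act (emb s A) (sl t b) =
    fun J => ∑ b', (0 : Matrix (Fin v) (Fin v) ℂ) b b' * sl t b' J := hA.2 b
  rw [h1]
  funext J
  simp

variable {F : Fam n r s v B} {k : Fin r → ℕ}

theorem pairs_mem {t : (Fin m → Fin s ⊕ Fin n) → Fin v → ℚ}
    (ht : ∀ b, IsHodgeZ (F.T b) (F.V b) t) (b : B) (σ : ℂ ≃+* ℂ) :
    ((F.T b).x.map σ, (F.V b).z.map σ) ∈ pairs F.Q F.c t := by
  refine ⟨⟨?_, (F.block b).map (map_zero σ)⟩, fun e => hodge_map (ht b) σ e⟩
  have h1 := skew_map (F.T b).skew σ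
  rw [F.form b] at h1
  exact h1

/-- The nonzero operators. -/
theorem exists_ne {t : (Fin m → Fin s ⊕ Fin n) → Fin v → ℚ}
    (ht : ∀ b, IsHodgeZ (F.T b) (F.V b) t) (b₀ : B) (hT : Full (F.T b₀) F.c k) (i : Fin r)
    (h : F.Unrel b₀ i) :
    ∃ y ∈ Nt F.Q F.c t, ∃ a b, F.c a = i ∧ F.c b = i ∧ y a b ≠ 0 := by
  rcases h with h | ⟨b, b', hz, p, q, hp, hq, hne⟩ | h
  · rcases unrelated_imp hT (hz_diag (F.V b₀)) h with h | h
    · obtain ⟨A, hA, a, b, ha, hb, hne⟩ := exists_alone i h (pairs F.Q F.c t) (fun p hp => hp.1.2)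
        pairs_br (fun σ => pairs_mem ht b₀ σ)
      exact ⟨A, pairs_alone hA, a, b, ha, hb, hne⟩
    · obtain ⟨δ, hδ, a, b, ha, hb, hne⟩ := exists_der h
      have h1 := Nt_der (ht b₀) hT.bx δ hδ
      rw [F.form b₀] at h1
      exact ⟨_, h1, a, b, ha, hb, hne⟩
  · have h1 := (pairs F.Q F.c t).sub_mem (pairs_mem ht b (RingEquiv.refl ℂ))
      (pairs_mem ht b' (RingEquiv.refl ℂ))
    have h2 : ((F.T b).x - (F.T b').x, (0 : Matrix (Fin v) (Fin v) ℂ)) ∈ pairs F.Q F.c t := by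
      have h3 : ∀ {l : ℕ} (A : Matrix (Fin l) (Fin l) ℂ), A.map (RingEquiv.refl ℂ) = A :=
        fun A => by ext; rfl
      rw [h3, h3, h3, h3, Prod.mk_sub_mk, hz, sub_self] at h1
      exact h1
    exact ⟨_, pairs_alone h2, p, q, hp, hq, sub_ne_zero.2 hne⟩
  · obtain ⟨A, hA, a, b, ha, hb, hne⟩ := exists_aloneF i h (pairs F.Q F.c t) (fun p hp => hp.1.2)
      pairs_br (fun b σ => pairs_mem ht b σ)
    exact ⟨A, pairs_alone hA, a, b, ha, hb, hne⟩

/-- **Separation of the variables for flat Hodge classes.** -/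
theorem separateF (b₀ : B) (hT : Full (F.T b₀) F.c k) (hU : ∀ i, F.Unrel b₀ i)
    (a : Fin m → Fin r) (t : (Fin m → Fin s ⊕ Fin n) → Fin v → ℚ) (ht : F.IsSection a t) :
    (∀ e, (fun J => t J e) ∈ algQ F.Q F.c F.d a) ∧ ∀ b J, t J ∈ (F.V b).Hdg := by
  have hmem : ∀ Z : Matrix (Fin n) (Fin n) ℂ, Zᵀ * mC F.Q + mC F.Q * Z = 0 → BD F.c Z →
      Z ∈ Nt F.Q F.c t := by
    rw [← F.form b₀]
    refine full_mem hT _ (fun y hy => hy.1) (fun σ y hy => ?_) fun i => ?_
    · refine Nt_norm (skew_map (F.T b₀).skew σ) ?_ (hodge_map (ht.hodge b₀) σ) hy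
      exact hT.bx.map (map_zero σ)
    · have h1 := exists_ne ht.hodge b₀ hT i (hU i)
      rw [← F.form b₀] at h1
      exact h1
  have hx : ∀ b, (F.T b).x ∈ Nt F.Q F.c t := by
    intro b
    refine hmem _ ?_ (F.block b)
    rw [← F.form b]
    exact (F.T b).skew
  constructor
  · intro e
    have h1 : (F.T b₀).IsHodgeS fun J => t J e := by
      intro u l hu hl
      have h2 : W143.PG.aN ((F.T b₀).xS s) (cx fun J => t J e) = 0 := (hx b₀).2 e
      exact W143.PG.killed h2 u (fun j => (l j : ℂ)) hu (by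
        intro h3
        apply hl
        exact_mod_cast h3)
    have h2 := hcFull hT F.d a _ h1 (fun J hJ => ht.surf J e hJ) (fun J hJ i => by
      rw [← hT.rank i]
      exact ht.few J e hJ i)
    rw [algP_eq, F.form b₀] at h2
    exact h2
  · intro b J
    change (F.V b).z *ᵥ cV (t J) = 0
    rw [op_eq t (ht.hodge b) J]
    funext e
    exact congrFun ((hx b).2 e) J

/-- The push-forwards of a global section are global sections. -/
theorem contr_flat (b₀ : B) {a : Fin m → Fin r} {t : (Fin m → Fin s ⊕ Fin n) → Fin v → ℚ}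
    (ht : F.IsSection a t) (hH : ∀ b J, t J ∈ (F.V b).Hdg)
    {β : (Fin m → Fin s ⊕ Fin n) → ℚ} (hβ : β ∈ algQ F.Q F.c F.d a) :
    contr F.Q F.ρ β t ∈ F.flat := by
  constructor
  · intro g hg
    obtain ⟨h1, h2⟩ := F.isom g hg
    have h3 : pull (ext1 s g.1) β = β := by
      refine algP_fixed (F.T b₀) F.c F.d a ?_ h2 ?_
      · rw [F.form b₀]; exact h1
      · rw [algP_eq, F.form b₀]; exact hβ
    have h4 : ∀ e, inter F.Q F.ρ β (pull (ext1 s g.1) fun J => t J e) =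
        inter F.Q F.ρ β fun J => t J e := by
      intro e
      have h5 := inter_pull (F.T b₀) F.ρ (g := g.1) (by rw [F.form b₀]; exact h1) β
        fun J => t J e
      rw [h3, F.form b₀] at h5
      exact h5
    funext e
    have h6 : (fun J => t J e) = ∑ e', g.2 e e' • pull (ext1 s g.1) fun J => t J e' := by
      funext J
      have h7 := congrFun (ht.glob g hg J) e
      rw [← h7, Finset.sum_apply]
      rfl
    change ∑ e', g.2 e e' * contr F.Q F.ρ β t e' = inter F.Q F.ρ β fun J => t J e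
    have h8 : (inter F.Q F.ρ β fun J => t J e) = interL F.Q F.ρ β fun J => t J e := rfl
    rw [h8, h6, map_sum]
    refine Finset.sum_congr rfl fun e' _ => ?_
    rw [map_smul, smul_eq_mul, interL_apply, h4]
    rfl
  · intro b
    have h1 : contr F.Q F.ρ β t =
        ∑ J, ∑ K, (β J * ∏ j, ifm F.Q F.ρ (J j) (K j)) • t K := by
      funext e
      rw [Finset.sum_apply]
      refine Finset.sum_congr rfl fun J _ => ?_
      rw [Finset.sum_apply]
      rfl
    rw [h1]
    exact Submodule.sum_mem _ fun J _ => Submodule.sum_mem _ fun K _ =>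
      Submodule.smul_mem _ _ (hH b K)

/-- **Flat Hodge classes.** -/
theorem section_mem (b₀ : B) (hT : Full (F.T b₀) F.c k) (hU : ∀ i, F.Unrel b₀ i)
    (a : Fin m → Fin r) (t : (Fin m → Fin s ⊕ Fin n) → Fin v → ℚ) (ht : F.IsSection a t) :
    t ∈ products (algQ F.Q F.c F.d a) F.flat := by
  obtain ⟨h1, h2⟩ := separateF b₀ hT hU a t ht
  have h3 := rebuild (F.T b₀) hT.bx F.d a F.ρ_ne t (by
    intro e
    rw [algP_eq, F.form b₀]
    exact h1 e) F.flat (by
    intro β hβ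
    rw [algP_eq, F.form b₀] at hβ
    rw [F.form b₀]
    exact contr_flat b₀ ht h2 hβ)
  rw [algP_eq, F.form b₀] at h3
  exact h3

/-- **The variational Hodge conjecture.** -/
theorem vhc (b₀ : B) (hT : Full (F.T b₀) F.c k) (hU : ∀ i, F.Unrel b₀ i) (𝒜 : Classes F)
    (h : 𝒜.VHC) (a : Fin m → Fin r) : 𝒜.VHCX a := by
  intro t ht b hb b'
  obtain ⟨h1, h2⟩ := separateF b₀ hT hU a t ht
  have h3 := rebuild (F.T b₀) hT.bx F.d a F.ρ_ne t (by
    intro e
    rw [algP_eq, F.form b₀]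
    exact h1 e) (F.flat ⊓ 𝒜.Z b) (by
    intro β hβ
    rw [algP_eq, F.form b₀] at hβ
    rw [F.form b₀]
    exact ⟨contr_flat b₀ ht h2 hβ, 𝒜.push a b β hβ t hb⟩)
  rw [algP_eq, F.form b₀] at h3
  have h4 : products (algQ F.Q F.c F.d a) (F.flat ⊓ 𝒜.Z b) ≤ 𝒜.X a b' := by
    unfold products
    rw [Submodule.span_le]
    rintro f ⟨α, hα, x, ⟨hx1, hx2⟩, rfl⟩
    exact 𝒜.mul a b' α hα x (h x hx1 b hx2 b')
  exact h4 h3

/-- a product of algebraic classes -/
def algOne (e : Fin m → Fin s) : (Fin m → Fin s ⊕ Fin n) → ℚ :=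
  fun J => ∏ j, Sum.elim (fun l => if l = e j then (1 : ℚ) else 0) (fun _ => 0) (J j)

theorem algOne_mem (Q : Matrix (Fin n) (Fin n) ℚ) (c : Fin n → Fin r) (d : Fin s → Fin r)
    (a : Fin m → Fin r) (e : Fin m → Fin s) (he : ∀ j, d (e j) = a j) :
    algOne e ∈ algQ Q c d a := by
  refine Submodule.subset_span ⟨id, fun j l => if l = e j then 1 else 0, fun j => rfl,
    fun j => rfl, fun j b hb => ?_, fun J => ?_⟩
  · by_contra h
    apply hb
    refine if_neg ?_
    rintro rfl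
    exact h (he j)
  · have h1 : (univ.filter fun j : Fin m => j < id j) = ∅ := by
      refine Finset.filter_false_of_mem fun j _ => lt_irrefl j
    have h2 : (univ.filter fun j : Fin m => id j = j) = univ :=
      Finset.filter_true_of_mem fun j _ => rfl
    rw [h1, h2, Finset.prod_empty, mul_one]
    rfl

theorem algOne_apply (e : Fin m → Fin s) :
    algOne (n := n) e (fun j => Sum.inl (e j)) = 1 := by
  unfold algOne
  exact Finset.prod_eq_one fun j _ => if_pos rfl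

theorem algOne_ne {e : Fin m → Fin s} {J : Fin m → Fin s ⊕ Fin n} (h : algOne e J ≠ 0)
    (j : Fin m) : J j = Sum.inl (e j) := by
  have h1 := Finset.prod_ne_zero_iff.1 h j (Finset.mem_univ _)
  rcases hJ : J j with l | l
  · rw [hJ] at h1
    by_contra h2
    apply h1
    exact if_neg fun h3 => h2 (by rw [h3])
  · rw [hJ] at h1
    exact absurd rfl h1

/-- **The converse.** -/
theorem vhc_conv (b₀ : B) (hT : Full (F.T b₀) F.c k) (𝒜 : Classes F) (a : Fin m → Fin r)
    (h : 𝒜.VHCX a) : 𝒜.VHC := by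
  intro x hx b hb b'
  choose e he using fun j => F.surj (a j)
  have hα : algOne e ∈ algQ F.Q F.c F.d a := algOne_mem F.Q F.c F.d a e he
  have h0 : (algOne e : (Fin m → Fin s ⊕ Fin n) → ℚ) ≠ 0 := by
    intro h1
    have h2 := algOne_apply (n := n) e
    rw [h1] at h2
    exact zero_ne_one h2
  have hs : F.IsSection a (fun J l => algOne e J * x l) := by
    constructor
    · intro J l hJ j
      rw [algOne_ne (left_ne_zero_of_mul hJ) j]
      exact he j
    · intro J l hJ i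
      have h1 : (univ.filter fun j => ∃ l, J j = Sum.inr l ∧ F.c l = i) = ∅ := by
        refine Finset.filter_false_of_mem fun j _ => ?_
        rintro ⟨l', h2, -⟩
        rw [algOne_ne (left_ne_zero_of_mul hJ) j] at h2
        exact absurd h2 (by simp)
      rw [h1, Finset.card_empty, hT.rank i]
      have := hT.three i
      omega
    · intro g hg J
      obtain ⟨h1, h2⟩ := F.isom g hg
      have h3 : pull (ext1 s g.1) (algOne e) = algOne e := by
        refine algP_fixed (F.T b₀) F.c F.d a ?_ h2 ?_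
        · rw [F.form b₀]; exact h1
        · rw [algP_eq, F.form b₀]; exact hα
      have h4 : (fun l => pull (ext1 s g.1) (fun K => algOne e K * x l) J) = algOne e J • x := by
        funext l
        rw [Pi.smul_apply, smul_eq_mul]
        conv_rhs => rw [← h3]
        unfold pull
        rw [Finset.sum_mul]
        refine Finset.sum_congr rfl fun K _ => ?_
        ring
      rw [h4, Matrix.mulVec_smul, hx.1 g hg]
      rfl
    · intro b
      refine products_hodge (F.block b) F.d a _ (Submodule.subset_span ⟨algOne e, ?_, x, hx.2 b,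
        rfl⟩)
      rw [algP_eq, F.form b]
      exact hα
  have h1 : (fun J l => algOne e J * x l) ∈ 𝒜.X a b' :=
    h _ hs b (𝒜.mul a b (algOne e) hα x hb) b'
  obtain ⟨β, hβ, hne⟩ := inter_nondeg (F.T b₀) hT.bx F.d a F.ρ_ne
    (α := algOne e) (by rw [algP_eq, F.form b₀]; exact hα) h0
  rw [algP_eq, F.form b₀] at hβ
  rw [F.form b₀] at hne
  have h2 := 𝒜.push a b' β hβ _ h1
  have h3 : contr F.Q F.ρ β (fun J l => algOne e J * x l) =
      inter F.Q F.ρ β (algOne e) • x := by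
    funext l
    change inter F.Q F.ρ β (fun J => algOne e J * x l) = _
    rw [Pi.smul_apply, smul_eq_mul]
    unfold inter
    simp only [Finset.sum_mul]
    refine Finset.sum_congr rfl fun J _ => Finset.sum_congr rfl fun K _ => ?_
    ring
  rw [h3] at h2
  have h4 := Submodule.smul_mem _ (inter F.Q F.ρ β (algOne e))⁻¹ h2
  rwa [smul_smul, inv_mul_cancel₀ hne, one_smul] at h4

end

end Pool.Agent.U228.VH
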